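import Pool.Agent.Helper62.PM.St

/-!
# Project PM, module E: sublinearity from second differences along great circles
-/

set_option autoImplicit false

open MeasureTheory Metric Set Filter Topology
open scoped RealInnerProductSpace ContDiff

namespace Pool.Agent.Helper22.PM

open Pool.Agent.Helper62.PM
open Pool.Agent.Helper62.Mink

/-- the limit of the quotients of a function dominated by a multiple of a faster cosine -/
private lemma quot_neg (D : ℝ → ℝ) (c κ om δ : ℝ) (hκ : 0 < κ) (hom : 1 < om) (hδ : 0 < δ)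
    (hD : ∀ s : ℝ, 0 < s → s < δ → D s ≤ κ * (2 * (Real.cos (om * s) - Real.cos s)))
    (hc : Tendsto (fun s : ℝ => D s / s ^ 2) (𝓝[>] 0) (𝓝 c)) : c < 0 := by
  have h1 : Tendsto (fun s : ℝ => κ * ((1 - om ^ 2) + 2 * (om ^ 4 * s ^ 2 * (5 / 96)))) (𝓝[>] 0)
      (𝓝 (κ * ((1 - om ^ 2) + 2 * (om ^ 4 * 0 ^ 2 * (5 / 96))))) := by
    have : Continuous (fun s : ℝ => κ * ((1 - om ^ 2) + 2 * (om ^ 4 * s ^ 2 * (5 / 96)))) := by
      fun_prop
    exact (this.tendsto 0).mono_left nhdsWithin_le_nhds
  have h2 : c ≤ κ * ((1 - om ^ 2) + 2 * (om ^ 4 * 0 ^ 2 * (5 / 96))) := by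
    refine le_of_tendsto_of_tendsto hc h1 ?_
    have hom0 : 0 < om := by linarith
    have hm : 0 < min δ om⁻¹ := lt_min hδ (inv_pos.2 hom0)
    filter_upwards [Ioo_mem_nhdsGT hm] with s hs
    have hs0 : 0 < s := hs.1
    have hs1 : s < δ := lt_of_lt_of_le hs.2 (min_le_left _ _)
    have hs2 : s < om⁻¹ := lt_of_lt_of_le hs.2 (min_le_right _ _)
    have h3 := hD s hs0 hs1
    have h4 : |om * s| ≤ 1 := by
      rw [abs_of_pos (mul_pos hom0 hs0)]
      have := mul_lt_mul_of_pos_left hs2 hom0
      rw [mul_inv_cancel₀ hom0.ne'] at this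
      exact this.le
    have h5 := (abs_le.1 (Real.cos_bound h4)).2
    have h6 := Real.one_sub_sq_div_two_le_cos (x := s)
    rw [abs_of_pos (mul_pos hom0 hs0)] at h5
    rw [div_le_iff₀ (by positivity)]
    have h7 : 2 * (Real.cos (om * s) - Real.cos s) ≤
        ((1 - om ^ 2) + 2 * (om ^ 4 * s ^ 2 * (5 / 96))) * s ^ 2 := by
      nlinarith [h5, h6]
    calc D s ≤ κ * (2 * (Real.cos (om * s) - Real.cos s)) := h3
      _ ≤ κ * (((1 - om ^ 2) + 2 * (om ^ 4 * s ^ 2 * (5 / 96))) * s ^ 2) :=
          mul_le_mul_of_nonneg_left h7 hκ.le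
      _ = _ := by ring
  have h3 : κ * ((1 - om ^ 2) + 2 * (om ^ 4 * 0 ^ 2 * (5 / 96))) < 0 := by
    have : (1 - om ^ 2) < 0 := by nlinarith
    nlinarith
  linarith

/-- the plane case with zero boundary values -/
private lemma plane0 (G : ℝ → ℝ) (hG : Continuous G)
    (hq : ∀ t : ℝ, ∃ c : ℝ, 0 ≤ c ∧ Tendsto (fun s : ℝ =>
      (G (t + s) + G (t - s) - 2 * Real.cos s * G t) / s ^ 2) (𝓝[>] 0) (𝓝 c))
    (α β : ℝ) (hα : 0 < α) (hβ : 0 < β) (hαβ : α + β < Real.pi)
    (h1 : G (-α) = 0) (h2 : G β = 0) : G 0 ≤ 0 := by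
  by_contra hcon
  have hcon : 0 < G 0 := not_le.1 hcon
  -- the comparison function
  have hs : 0 < α + β := by linarith
  obtain ⟨om, hom1, hom2⟩ : ∃ om : ℝ, 1 < om ∧ om * ((α + β) / 2) < Real.pi / 2 := by
    refine ⟨(1 + Real.pi / (α + β)) / 2, ?_, ?_⟩
    · have : 1 < Real.pi / (α + β) := by rwa [one_lt_div hs]
      linarith
    · have : (1 + Real.pi / (α + β)) / 2 * ((α + β) / 2) = ((α + β) + Real.pi) / 4 := by
        field_simp
        ring
      rw [this]
      linarith
  obtain ⟨m, hm⟩ : ∃ m : ℝ, m = (β - α) / 2 := ⟨_, rfl⟩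
  have hkpos : ∀ t ∈ Icc (-α) β, 0 < Real.cos (om * (t - m)) := by
    intro t ht
    apply Real.cos_pos_of_mem_Ioo
    have h3 : |om * (t - m)| < Real.pi / 2 := by
      rw [abs_mul, abs_of_pos (by linarith : (0 : ℝ) < om)]
      refine lt_of_le_of_lt (mul_le_mul_of_nonneg_left ?_ (by linarith)) hom2
      rw [abs_le]
      constructor
      · have := ht.1
        rw [hm]
        linarith
      · have := ht.2
        rw [hm]
        linarith
    exact ⟨(abs_lt.1 h3).1, (abs_lt.1 h3).2⟩
  have hcont : ContinuousOn (fun t => G t / Real.cos (om * (t - m))) (Icc (-α) β) := by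
    apply ContinuousOn.div hG.continuousOn
    · exact (by fun_prop : Continuous (fun t : ℝ => Real.cos (om * (t - m)))).continuousOn
    · intro t ht
      exact (hkpos t ht).ne'
  obtain ⟨t, ht, hmax⟩ := isCompact_Icc.exists_isMaxOn
    (show (Icc (-α) β).Nonempty from ⟨0, by constructor <;> linarith⟩) hcont
  have h0mem : (0 : ℝ) ∈ Icc (-α) β := by constructor <;> linarith
  obtain ⟨M, hM⟩ : ∃ M : ℝ, M = G t / Real.cos (om * (t - m)) := ⟨_, rfl⟩
  have hM0 : 0 < M := by
    have h3 : G 0 / Real.cos (om * (0 - m)) ≤ G t / Real.cos (om * (t - m)) := hmax h0mem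
    rw [hM]
    exact lt_of_lt_of_le (div_pos hcon (hkpos 0 h0mem)) h3
  have hGt : G t = M * Real.cos (om * (t - m)) := by
    rw [hM, div_mul_cancel₀ _ (hkpos t ht).ne']
  have hle : ∀ r ∈ Icc (-α) β, G r ≤ M * Real.cos (om * (r - m)) := by
    intro r hr
    have h3 : G r / Real.cos (om * (r - m)) ≤ G t / Real.cos (om * (t - m)) := hmax hr
    rw [← hM, div_le_iff₀ (hkpos r hr)] at h3
    exact h3
  have hGt0 : 0 < G t := by
    rw [hGt]
    exact mul_pos hM0 (hkpos t ht)
  have ht1 : -α < t := by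
    rcases ht.1.lt_or_eq with h | h
    · exact h
    · rw [← h, h1] at hGt0
      exact absurd hGt0 (lt_irrefl _)
  have ht2 : t < β := by
    rcases ht.2.lt_or_eq with h | h
    · exact h
    · rw [h, h2] at hGt0
      exact absurd hGt0 (lt_irrefl _)
  obtain ⟨c, hc0, hc⟩ := hq t
  have hneg := quot_neg (fun s => G (t + s) + G (t - s) - 2 * Real.cos s * G t) c
    (M * Real.cos (om * (t - m))) om (min (t + α) (β - t)) (mul_pos hM0 (hkpos t ht)) hom1
    (lt_min (by linarith) (by linarith)) (by
      intro s hs0 hs1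
      have hs2 : s < t + α := lt_of_lt_of_le hs1 (min_le_left _ _)
      have hs3 : s < β - t := lt_of_lt_of_le hs1 (min_le_right _ _)
      have h3 := hle (t + s) ⟨by linarith, by linarith⟩
      have h4 := hle (t - s) ⟨by linarith, by linarith⟩
      have h5 : Real.cos (om * (t + s - m)) + Real.cos (om * (t - s - m)) =
          2 * Real.cos (om * (t - m)) * Real.cos (om * s) := by
        have e1 : om * (t + s - m) = om * (t - m) + om * s := by ring
        have e2 : om * (t - s - m) = om * (t - m) - om * s := by ring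
        rw [e1, e2, Real.cos_add, Real.cos_sub]
        ring
      show G (t + s) + G (t - s) - 2 * Real.cos s * G t ≤ _
      rw [hGt]
      have h6 : M * Real.cos (om * (t + s - m)) + M * Real.cos (om * (t - s - m)) =
          M * (2 * Real.cos (om * (t - m)) * Real.cos (om * s)) := by
        rw [← mul_add, h5]
      nlinarith [h3, h4, h6]) hc
  linarith

/-- the plane case -/
private lemma plane (g : ℝ → ℝ) (hg : Continuous g)
    (hq : ∀ t : ℝ, ∃ c : ℝ, 0 ≤ c ∧ Tendsto (fun s : ℝ =>
      (g (t + s) + g (t - s) - 2 * Real.cos s * g t) / s ^ 2) (𝓝[>] 0) (𝓝 c))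
    (α β : ℝ) (hα : 0 < α) (hβ : 0 < β) (hαβ : α + β < Real.pi) :
    Real.sin (α + β) * g 0 ≤ Real.sin β * g (-α) + Real.sin α * g β := by
  have hS : 0 < Real.sin (α + β) := Real.sin_pos_of_pos_of_lt_pi (by linarith) hαβ
  obtain ⟨u, hu⟩ : ∃ u : ℝ → ℝ, u = fun t =>
      (Real.sin (β - t) * g (-α) + Real.sin (t + α) * g β) / Real.sin (α + β) := ⟨_, rfl⟩
  have hucont : Continuous u := by
    rw [hu]
    fun_prop
  have husum : ∀ t s : ℝ, u (t + s) + u (t - s) = 2 * Real.cos s * u t := by
    intro t s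
    rw [hu]
    have e1 : Real.sin (β - (t + s)) + Real.sin (β - (t - s)) =
        2 * Real.sin (β - t) * Real.cos s := by
      have e1 : β - (t + s) = (β - t) - s := by ring
      have e2 : β - (t - s) = (β - t) + s := by ring
      rw [e1, e2, Real.sin_add, Real.sin_sub]
      ring
    have e2 : Real.sin (t + s + α) + Real.sin (t - s + α) =
        2 * Real.sin (t + α) * Real.cos s := by
      have e1 : t + s + α = (t + α) + s := by ring
      have e2 : t - s + α = (t + α) - s := by ring
      rw [e1, e2, Real.sin_add, Real.sin_sub]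
      ring
    show (Real.sin (β - (t + s)) * g (-α) + Real.sin (t + s + α) * g β) / Real.sin (α + β) +
      (Real.sin (β - (t - s)) * g (-α) + Real.sin (t - s + α) * g β) / Real.sin (α + β) =
      2 * Real.cos s * ((Real.sin (β - t) * g (-α) + Real.sin (t + α) * g β) / Real.sin (α + β))
    rw [← add_div, mul_div_assoc']
    congr 1
    linear_combination g (-α) * e1 + g β * e2
  have hu1 : u (-α) = g (-α) := by
    rw [hu]
    show (Real.sin (β - -α) * g (-α) + Real.sin (-α + α) * g β) / Real.sin (α + β) = _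
    rw [show β - -α = α + β by ring, show -α + α = 0 by ring, Real.sin_zero]
    field_simp
    ring
  have hu2 : u β = g β := by
    rw [hu]
    show (Real.sin (β - β) * g (-α) + Real.sin (β + α) * g β) / Real.sin (α + β) = _
    rw [show β - β = 0 by ring, show β + α = α + β by ring, Real.sin_zero]
    field_simp
    ring
  have hu0 : u 0 = (Real.sin β * g (-α) + Real.sin α * g β) / Real.sin (α + β) := by
    rw [hu]
    show (Real.sin (β - 0) * g (-α) + Real.sin (0 + α) * g β) / Real.sin (α + β) = _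
    rw [sub_zero, zero_add]
  have key := plane0 (fun t => g t - u t) (hg.sub hucont) (by
    intro t
    obtain ⟨c, hc0, hc⟩ := hq t
    refine ⟨c, hc0, ?_⟩
    refine hc.congr ?_
    intro s
    show _ = ((g (t + s) - u (t + s)) + (g (t - s) - u (t - s)) -
      2 * Real.cos s * (g t - u t)) / s ^ 2
    congr 1
    linear_combination husum t s) α β hα hβ hαβ (by
      show g (-α) - u (-α) = 0
      rw [hu1, sub_self]) (by
      show g β - u β = 0
      rw [hu2, sub_self])
  have key2 : g 0 ≤ (Real.sin β * g (-α) + Real.sin α * g β) / Real.sin (α + β) := by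
    have : g 0 - u 0 ≤ 0 := key
    rw [← hu0]
    linarith
  rw [le_div_iff₀ hS] at key2
  linarith

/-- polar coordinates in the upper half plane -/
private lemma polar (p q : ℝ) (hq : 0 < q) :
    ∃ r α : ℝ, 0 < r ∧ 0 < α ∧ α < Real.pi ∧ p = r * Real.cos α ∧ q = r * Real.sin α := by
  obtain ⟨z, hz⟩ : ∃ z : ℂ, z = ⟨p, q⟩ := ⟨_, rfl⟩
  have hre : z.re = p := by rw [hz]
  have him : z.im = q := by rw [hz]
  have hz0 : z ≠ 0 := by
    intro h
    rw [h, Complex.zero_im] at him
    linarith
  have h1 := Complex.norm_mul_cos_arg z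
  have h2 := Complex.norm_mul_sin_arg z
  have hr : 0 < ‖z‖ := norm_pos_iff.2 hz0
  rw [hre] at h1
  rw [him] at h2
  have hmem := Complex.arg_mem_Ioc z
  have hsin : 0 < Real.sin (Complex.arg z) := by
    by_contra hcon
    have : ‖z‖ * Real.sin (Complex.arg z) ≤ 0 :=
      mul_nonpos_of_nonneg_of_nonpos hr.le (not_lt.1 hcon)
    linarith
  refine ⟨‖z‖, Complex.arg z, hr, ?_, ?_, h1.symm, h2.symm⟩
  · by_contra hcon
    have := Real.sin_nonpos_of_nonpos_of_neg_pi_le (not_lt.1 hcon) hmem.1.le
    linarith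
  · rcases hmem.2.lt_or_eq with h | h
    · exact h
    · rw [h, Real.sin_pi] at hsin
      exact absurd hsin (lt_irrefl _)

/-- the inequality in an open half plane configuration -/
private lemma open_case {n : ℕ} (F : E n → ℝ) (hF : Continuous F)
    (hom : ∀ c : ℝ, 0 ≤ c → ∀ x, F (c • x) = c * F x)
    (hq : ∀ a b : E n, ON (a, b) → ∃ c : ℝ, 0 ≤ c ∧ Tendsto (fun s : ℝ =>
      (F (Real.cos s • a + Real.sin s • b) + F (Real.cos s • a - Real.sin s • b) -
        2 * Real.cos s * F a) / s ^ 2) (𝓝[>] 0) (𝓝 c))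
    (a b : E n) (hab : ON (a, b)) (p p' q : ℝ) (hq0 : 0 < q) (hpp : 0 < p + p') :
    F ((p • a - q • b) + (p' • a + q • b)) ≤ F (p • a - q • b) + F (p' • a + q • b) := by
  obtain ⟨r, α, hr, hα0, hα1, hp, hqα⟩ := polar p q hq0
  obtain ⟨r', β, hr', hβ0, hβ1, hp', hqβ⟩ := polar p' q hq0
  have hsin : 0 < Real.sin (α + β) := by
    have h1 : r * r' * Real.sin (α + β) = q * (p + p') := by
      rw [Real.sin_add]
      have : r * r' * (Real.sin α * Real.cos β + Real.cos α * Real.sin β) =
          (r * Real.sin α) * (r' * Real.cos β) + (r * Real.cos α) * (r' * Real.sin β) := by ring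
      rw [this, ← hp, ← hp', ← hqα, ← hqβ]
      ring
    have h2 : 0 < r * r' * Real.sin (α + β) := by
      rw [h1]
      positivity
    exact (mul_pos_iff_of_pos_left (mul_pos hr hr')).1 h2
  have hαβ : α + β < Real.pi := by
    by_contra hcon
    have h1 : Real.sin (α + β - Real.pi) = - Real.sin (α + β) := Real.sin_sub_pi _
    have h2 : 0 ≤ Real.sin (α + β - Real.pi) :=
      Real.sin_nonneg_of_nonneg_of_le_pi (by linarith [not_lt.1 hcon]) (by linarith)
    linarith
  have hplane := plane (fun t => F (Real.cos t • a + Real.sin t • b)) (by fun_prop) (by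
    intro t
    have hab1 : ‖a‖ = 1 := hab.1
    have hab2 : ‖b‖ = 1 := hab.2.1
    have hab3 : (inner ℝ a b : ℝ) = 0 := hab.2.2
    have hab3' : (inner ℝ b a : ℝ) = 0 := by rw [real_inner_comm]; exact hab3
    have haa : (inner ℝ a a : ℝ) = 1 := by rw [real_inner_self_eq_norm_sq, hab1]; norm_num
    have hbb : (inner ℝ b b : ℝ) = 1 := by rw [real_inner_self_eq_norm_sq, hab2]; norm_num
    have hsc := Real.sin_sq_add_cos_sq t
    obtain ⟨c, hc0, hc⟩ := hq (Real.cos t • a + Real.sin t • b)
      (-Real.sin t • a + Real.cos t • b) (by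
        refine ⟨?_, ?_, ?_⟩
        · show ‖Real.cos t • a + Real.sin t • b‖ = 1
          have : ‖Real.cos t • a + Real.sin t • b‖ ^ 2 = 1 := by
            rw [← real_inner_self_eq_norm_sq]
            simp only [inner_add_left, inner_add_right, inner_smul_left, inner_smul_right,
              haa, hbb, hab3, hab3', conj_trivial]
            linear_combination hsc
          nlinarith [norm_nonneg (Real.cos t • a + Real.sin t • b), this]
        · show ‖-Real.sin t • a + Real.cos t • b‖ = 1
          have : ‖-Real.sin t • a + Real.cos t • b‖ ^ 2 = 1 := by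
            rw [← real_inner_self_eq_norm_sq]
            simp only [inner_add_left, inner_add_right, inner_smul_left, inner_smul_right,
              haa, hbb, hab3, hab3', conj_trivial]
            linear_combination hsc
          nlinarith [norm_nonneg (-Real.sin t • a + Real.cos t • b), this]
        · show (inner ℝ (Real.cos t • a + Real.sin t • b)
            (-Real.sin t • a + Real.cos t • b) : ℝ) = 0
          simp only [inner_add_left, inner_add_right, inner_smul_left, inner_smul_right,
              haa, hbb, hab3, hab3', conj_trivial]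
          ring)
    refine ⟨c, hc0, ?_⟩
    refine hc.congr ?_
    intro s
    have e1 : Real.cos s • (Real.cos t • a + Real.sin t • b) +
        Real.sin s • (-Real.sin t • a + Real.cos t • b) =
        Real.cos (t + s) • a + Real.sin (t + s) • b := by
      rw [Real.cos_add, Real.sin_add]
      module
    have e2 : Real.cos s • (Real.cos t • a + Real.sin t • b) -
        Real.sin s • (-Real.sin t • a + Real.cos t • b) =
        Real.cos (t - s) • a + Real.sin (t - s) • b := by
      rw [Real.cos_sub, Real.sin_sub]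
      module
    rw [e1, e2]) α β hα0 hβ0 hαβ
  have hplane : Real.sin (α + β) * F (Real.cos 0 • a + Real.sin 0 • b) ≤
      Real.sin β * F (Real.cos (-α) • a + Real.sin (-α) • b) +
      Real.sin α * F (Real.cos β • a + Real.sin β • b) := hplane
  rw [Real.cos_zero, Real.sin_zero, one_smul, zero_smul, add_zero, Real.cos_neg, Real.sin_neg]
    at hplane
  have hx : F (p • a - q • b) = r * F (Real.cos α • a + -Real.sin α • b) := by
    rw [← hom r hr.le]
    congr 1
    rw [hp, hqα]
    module
  have hy : F (p' • a + q • b) = r' * F (Real.cos β • a + Real.sin β • b) := by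
    rw [← hom r' hr'.le]
    congr 1
    rw [hp', hqβ]
    module
  have hz : F ((p • a - q • b) + (p' • a + q • b)) = (p + p') * F a := by
    rw [← hom (p + p') hpp.le]
    congr 1
    module
  have hmul := mul_le_mul_of_nonneg_left hplane (mul_pos hr hr').le
  have hL : r * r' * (Real.sin (α + β) * F a) = q * ((p + p') * F a) := by
    rw [Real.sin_add]
    have : r * r' * ((Real.sin α * Real.cos β + Real.cos α * Real.sin β) * F a) =
        ((r * Real.sin α) * (r' * Real.cos β) + (r * Real.cos α) * (r' * Real.sin β)) * F a := by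
      ring
    rw [this, ← hp, ← hp', ← hqα, ← hqβ]
    ring
  have hR : r * r' * (Real.sin β * F (Real.cos α • a + -Real.sin α • b) +
      Real.sin α * F (Real.cos β • a + Real.sin β • b)) =
      q * (F (p • a - q • b) + F (p' • a + q • b)) := by
    rw [hx, hy]
    have : r * r' * (Real.sin β * F (Real.cos α • a + -Real.sin α • b) +
      Real.sin α * F (Real.cos β • a + Real.sin β • b)) =
      (r' * Real.sin β) * (r * F (Real.cos α • a + -Real.sin α • b)) +
      (r * Real.sin α) * (r' * F (Real.cos β • a + Real.sin β • b)) := by ring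
    rw [this, ← hqα, ← hqβ]
    ring
  rw [hL, hR, ← hz] at hmul
  exact le_of_mul_le_mul_left hmul hq0

private lemma exists_unit {n : ℕ} (hn : 2 ≤ n) (z : E n) :
    ∃ a : E n, ‖a‖ = 1 ∧ z = ‖z‖ • a := by
  by_cases hz : z = 0
  · refine ⟨EuclideanSpace.single ⟨0, by omega⟩ 1, by simp, ?_⟩
    rw [hz, norm_zero, zero_smul]
  · refine ⟨‖z‖⁻¹ • z, ?_, ?_⟩
    · rw [norm_smul, norm_inv, norm_norm, inv_mul_cancel₀ (norm_ne_zero_iff.2 hz)]
    · rw [smul_smul, mul_inv_cancel₀ (norm_ne_zero_iff.2 hz), one_smul]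

private lemma exists_perp {n : ℕ} (hn : 2 ≤ n) (a w : E n)
    (haw : (inner ℝ a w : ℝ) = 0) :
    ∃ b : E n, ‖b‖ = 1 ∧ (inner ℝ a b : ℝ) = 0 ∧ w = ‖w‖ • b := by
  by_cases hw : w = 0
  · have hnt : ∃ v : E n, v ≠ 0 ∧ (inner ℝ a v : ℝ) = 0 := by
      have hne : (Submodule.span ℝ {a})ᗮ ≠ ⊥ := by
        intro hbot
        rw [Submodule.orthogonal_eq_bot_iff] at hbot
        have h1 : Module.finrank ℝ (Submodule.span ℝ {a}) = n := by
          rw [hbot, finrank_top]
          simp
        have h2 : Module.finrank ℝ (Submodule.span ℝ {a}) ≤ 1 := by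
          have := finrank_span_le_card (R := ℝ) ({a} : Set (E n))
          simpa using this
        omega
      obtain ⟨v, hv, hv0⟩ := Submodule.exists_mem_ne_zero_of_ne_bot hne
      exact ⟨v, hv0, (Submodule.mem_orthogonal_singleton_iff_inner_right).1 hv⟩
    obtain ⟨v, hv0, hv⟩ := hnt
    refine ⟨‖v‖⁻¹ • v, ?_, ?_, ?_⟩
    · rw [norm_smul, norm_inv, norm_norm, inv_mul_cancel₀ (norm_ne_zero_iff.2 hv0)]
    · rw [inner_smul_right, hv, mul_zero]
    · rw [hw, norm_zero, zero_smul]
  · refine ⟨‖w‖⁻¹ • w, ?_, ?_, ?_⟩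
    · rw [norm_smul, norm_inv, norm_norm, inv_mul_cancel₀ (norm_ne_zero_iff.2 hw)]
    · rw [inner_smul_right, haw, mul_zero]
    · rw [smul_smul, mul_inv_cancel₀ (norm_ne_zero_iff.2 hw), one_smul]

theorem hE : StE := by
  intro n F hn hF hom hq x y
  obtain ⟨a, ha, hza⟩ := exists_unit hn (x + y)
  have haa : (inner ℝ a a : ℝ) = 1 := by rw [real_inner_self_eq_norm_sq, ha]; norm_num
  obtain ⟨b, hb, hab, hwb⟩ := exists_perp hn a (y - (inner ℝ a y : ℝ) • a) (by
    rw [inner_sub_right, inner_smul_right, haa]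
    ring)
  have hon : ON (a, b) := ⟨ha, hb, hab⟩
  obtain ⟨p', hp'⟩ : ∃ p' : ℝ, p' = inner ℝ a y := ⟨_, rfl⟩
  obtain ⟨q, hqd⟩ : ∃ q : ℝ, q = ‖y - (inner ℝ a y : ℝ) • a‖ := ⟨_, rfl⟩
  obtain ⟨p, hp⟩ : ∃ p : ℝ, p = ‖x + y‖ - p' := ⟨_, rfl⟩
  have hq0 : 0 ≤ q := by rw [hqd]; exact norm_nonneg _
  have hpp : 0 ≤ p + p' := by
    rw [hp]
    have := norm_nonneg (x + y)
    linarith
  have hy : y = p' • a + q • b := by
    rw [← hqd, ← hp'] at hwb
    rw [← hwb]
    module
  have hx : x = p • a - q • b := by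
    have h1 : x = (x + y) - y := by abel
    have h2 : x = ‖x + y‖ • a - (p' • a + q • b) := by
      rw [← hza, ← hy]
      exact h1
    have h3 : ‖x + y‖ = p + p' := by
      rw [hp]
      ring
    rw [h3] at h2
    rw [h2]
    module
  rw [hx, hy]
  -- approximation
  have hlim1 : Tendsto (fun ε : ℝ => F (((p + ε) • a - (q + ε) • b) +
      ((p' + ε) • a + (q + ε) • b))) (𝓝[>] 0)
      (𝓝 (F (((p + 0) • a - (q + 0) • b) + ((p' + 0) • a + (q + 0) • b)))) := by
    have : Continuous (fun ε : ℝ => F (((p + ε) • a - (q + ε) • b) +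
      ((p' + ε) • a + (q + ε) • b))) := by fun_prop
    exact (this.tendsto 0).mono_left nhdsWithin_le_nhds
  have hlim2 : Tendsto (fun ε : ℝ => F ((p + ε) • a - (q + ε) • b) +
      F ((p' + ε) • a + (q + ε) • b)) (𝓝[>] 0)
      (𝓝 (F ((p + 0) • a - (q + 0) • b) + F ((p' + 0) • a + (q + 0) • b))) := by
    have : Continuous (fun ε : ℝ => F ((p + ε) • a - (q + ε) • b) +
      F ((p' + ε) • a + (q + ε) • b)) := by fun_prop
    exact (this.tendsto 0).mono_left nhdsWithin_le_nhds
  have hle := le_of_tendsto_of_tendsto hlim1 hlim2 (by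
    filter_upwards [self_mem_nhdsWithin] with ε hε
    have hε : 0 < ε := hε
    exact open_case F hF hom hq a b hon (p + ε) (p' + ε) (q + ε) (by linarith) (by linarith))
  simpa only [add_zero] using hle

end Pool.Agent.Helper22.PM
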